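import Pool.Agent.Lib.MP_a2cf47_nt.Outer

set_option autoImplicit false

open Real Finset

namespace Pool.Agent.Results.MP_a2cf47_nt.LimitSetsEqual

/-- `N_β(α)`: the number of lattice points `(k, m)`, both coordinates positive, in the closed
right triangle with vertices `(0,0)`, `(α/√β, 0)`, `(0, α√β)`. -/
noncomputable def latticeCount (β α : ℝ) : ℕ :=
  Set.ncard {x : ℤ × ℤ | 0 < x.1 ∧ 0 < x.2 ∧ (x.2 : ℝ) ≤ α * √β - x.1 * β}

/-- `M(α)`: the slopes `β > 0` at which `N_β(α)` is maximal. -/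
def maximisers (α : ℝ) : Set ℝ :=
  {β | 0 < β ∧ ∀ γ : ℝ, 0 < γ → latticeCount γ α ≤ latticeCount β α}

/-- The limit set `S`. -/
def limitSet : Set ℝ := ⋂ (r : ℝ) (_ : 0 < r), ⋃ (α : ℝ) (_ : r < α), maximisers α

/-- The extended limit set. -/
def extLimitSet : Set ℝ := ⋂ (r : ℝ) (_ : 0 < r), closure (⋃ (α : ℝ) (_ : r < α), maximisers α)

/-- The set `Λ` of the positive rationals with `limsup (N_β(α) - α²/2)/α > -1`. -/
noncomputable def Lam : Set ℝ :=
  {β | (∃ c : ℚ, 0 < c ∧ β = c) ∧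
    -1 < Filter.limsup (fun α : ℝ => ((latticeCount β α : ℝ) - α ^ 2 / 2) / α) Filter.atTop}

open Pool.Agent.Lib.MP_a2cf47_nt

theorem latticeCount_eq (β α : ℝ) : latticeCount β α = N β α := by
  unfold latticeCount N
  have h : {x : ℤ × ℤ | 0 < x.1 ∧ 0 < x.2 ∧ (x.2 : ℝ) ≤ α * √β - x.1 * β}
      = (fun x : ℕ × ℕ => ((x.1 : ℤ), (x.2 : ℤ))) '' pts β α := by
    ext ⟨k, m⟩
    simp only [Set.mem_ofPred_eq, Set.mem_image, pts, Prod.mk.injEq, Prod.exists]
    constructor
    · rintro ⟨hk, hm, h⟩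
      refine ⟨k.toNat, m.toNat, ⟨by omega, by omega, ?_⟩, by omega, by omega⟩
      have e1 : ((k.toNat : ℕ) : ℝ) = (k : ℝ) := by
        exact_mod_cast (Int.toNat_of_nonneg hk.le)
      have e2 : ((m.toNat : ℕ) : ℝ) = (m : ℝ) := by
        exact_mod_cast (Int.toNat_of_nonneg hm.le)
      rw [e1, e2]; exact h
    · rintro ⟨a, b, ⟨ha, hb, h⟩, rfl, rfl⟩
      refine ⟨by exact_mod_cast ha, by exact_mod_cast hb, ?_⟩
      push_cast; exact h
  rw [h, Set.ncard_image_of_injective]
  rintro ⟨a, b⟩ ⟨c, d⟩ hxy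
  simp only [Prod.mk.injEq, Nat.cast_inj] at hxy
  exact Prod.ext hxy.1 hxy.2

theorem mem_limitSet {β : ℝ} : β ∈ limitSet ↔ ∀ r : ℝ, 0 < r → ∃ α : ℝ, r < α ∧ β ∈ maximisers α := by
  simp [limitSet]

theorem mem_extLimitSet {β : ℝ} : β ∈ extLimitSet ↔
    ∀ r : ℝ, 0 < r → β ∈ closure (⋃ (α : ℝ) (_ : r < α), maximisers α) := by
  simp [extLimitSet]

theorem mem_maximisers {β α : ℝ} : β ∈ maximisers α ↔ 0 < β ∧ ∀ γ : ℝ, 0 < γ → N γ α ≤ N β α := by
  simp only [maximisers, Set.mem_ofPred_eq, latticeCount_eq]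

theorem sqrt_cond {p q : ℝ} (hp : 0 ≤ p) (hq : 0 ≤ q) :
    |√p - √q| < 1 ↔ p + q - 1 < 2 * √(p * q) := by
  rw [← sq_lt_one_iff_abs_lt_one, Real.sqrt_mul hp]
  have h1 : √p ^ 2 = p := Real.sq_sqrt hp
  have h2 : √q ^ 2 = q := Real.sq_sqrt hq
  constructor <;> intro h <;> nlinarith

/-- limsup of the normalised error for a rational slope -/
theorem limsup_iff {p q : ℕ} (hp : 0 < p) (hq : 0 < q) (hpq : Nat.Coprime p q) :
    -1 < Filter.limsup (fun α : ℝ => ((N ((p : ℝ) / q) α : ℝ) - α ^ 2 / 2) / α) Filter.atTop ↔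
      (p : ℝ) + q - 1 < 2 * √((p : ℝ) * q) := by
  have hpr : (0 : ℝ) < p := by exact_mod_cast hp
  have hqr : (0 : ℝ) < q := by exact_mod_cast hq
  have hs : 0 < √((p : ℝ) * q) := Real.sqrt_pos.2 (by positivity)
  have hss : √((p : ℝ) * q) ^ 2 = p * q := Real.sq_sqrt (by positivity)
  set s : ℝ := √((p : ℝ) * q) with hsdef
  set v : ℝ := (p + q - 1) / (2 * s) with hv
  set f : ℝ → ℝ := fun α => ((N ((p : ℝ) / q) α : ℝ) - α ^ 2 / 2) / α with hf
  -- upper bound
  obtain ⟨C, α₁, hα₁, hup⟩ := upper_near hp hq hpq (le_refl (0 : ℝ))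
  have hup2 : ∀ α : ℝ, α₁ ≤ α → f α ≤ -v + C / α := by
    intro α hα
    have hα0 : 0 < α := lt_of_lt_of_le hα₁ hα
    have h1 := hup α hα ((p : ℝ) / q) (by positivity) (by
      have : (q : ℝ) * (p / q) - p = 0 := by field_simp; ring
      rw [this]; simp)
    rw [hf]
    simp only
    rw [div_le_iff₀ hα0, add_mul, div_mul_cancel₀ _ hα0.ne']
    linarith
  -- values along a sequence
  have hval : ∀ t : ℕ, 0 < t → f (s * t) = -v := by
    intro t ht
    have htr : (0 : ℝ) < t := by exact_mod_cast ht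
    have hst : 0 < s * t := by positivity
    have hN : N ((p : ℝ) / q) (s * t) = R p q (p * q * t) := by
      rw [N_rat hp hq hst.le]
      congr 1
      rw [← hsdef]
      have : s * t * s = ((p * q * t : ℕ) : ℝ) := by
        push_cast; rw [← hss]; ring
      rw [this]; exact Nat.floor_natCast _
    have hcl := R_closed 0 t hp hq hpq
    rw [R_small (by omega : 0 < p + q), zero_add] at hcl
    have hcl2 : 8 * ((p : ℝ) * q) * (R p q (p * q * t) : ℝ)
        = (2 * (p * q * t) - (p + q - 1)) ^ 2 - (p + q - 1) ^ 2 := by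
      have : ((8 * ((p : ℤ) * q) * (R p q (p * q * t) : ℤ) : ℤ) : ℝ)
          = (((2 * (((0 : ℕ) : ℤ) + p * q * t) - (p + q - 1)) ^ 2 - (2 * ((0 : ℕ) : ℤ) - (p + q - 1)) ^ 2
            + 8 * (p * q) * ((0 : ℕ) : ℤ) : ℤ) : ℝ) := by rw [hcl]
      push_cast at this
      rw [this]; ring
    rw [hf]
    simp only
    rw [hN, div_eq_iff hst.ne', hv]
    have hpq0 : (8 : ℝ) * (p * q) ≠ 0 := by positivity
    apply mul_left_cancel₀ hpq0
    have e1 : (8 : ℝ) * (p * q) * ((R p q (p * q * t) : ℝ) - (s * t) ^ 2 / 2)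
        = 8 * (p * q) * (R p q (p * q * t) : ℝ) - 4 * (p * q) * (s ^ 2) * t ^ 2 := by ring
    rw [e1, hcl2, hss]
    field_simp
    ring
  have hfreq : ∃ᶠ α in Filter.atTop, -v ≤ f α := by
    rw [Filter.frequently_atTop]
    intro A
    obtain ⟨t, ht⟩ := exists_nat_gt (max (A / s) 0)
    have ht0 : 0 < t := by
      have : (0 : ℝ) < t := lt_of_le_of_lt (le_max_right _ _) ht
      exact_mod_cast this
    refine ⟨s * t, ?_, (hval t ht0).ge⟩
    have h1 : A / s < t := lt_of_le_of_lt (le_max_left _ _) ht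
    rw [div_lt_iff₀ hs] at h1
    linarith
  have hbdd : Filter.IsBoundedUnder (· ≤ ·) Filter.atTop f := by
    refine ⟨-v + |C|, ?_⟩
    rw [Filter.eventually_map]
    filter_upwards [Filter.eventually_ge_atTop α₁, Filter.eventually_ge_atTop 1] with α h1 h2
    refine le_trans (hup2 α h1) ?_
    have h3 : C / α ≤ |C| := by
      rw [div_le_iff₀ (by linarith)]
      have := le_abs_self C
      have := abs_nonneg C
      nlinarith
    linarith
  constructor
  · intro h
    by_contra hcon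
    push Not at hcon
    have hv1 : 1 ≤ v := by rw [hv, le_div_iff₀ (by positivity)]; linarith
    have h2 : Filter.limsup f Filter.atTop ≤ -1 := by
      apply le_of_forall_pos_le_add
      intro ε hε
      apply Filter.limsup_le_of_le
      · exact Filter.IsCoboundedUnder.of_frequently_ge hfreq
      · filter_upwards [Filter.eventually_ge_atTop α₁, Filter.eventually_ge_atTop 1,
          Filter.eventually_ge_atTop (|C| / ε)] with α h1 h2 h3
        refine le_trans (hup2 α h1) ?_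
        have h4 : C / α ≤ ε := by
          rw [div_le_iff₀ (by linarith)]
          rw [div_le_iff₀ hε] at h3
          have := le_abs_self C
          linarith
        linarith
    linarith
  · intro h
    have hv1 : v < 1 := by rw [hv, div_lt_one (by positivity)]; exact h
    have h2 : -v ≤ Filter.limsup f Filter.atTop :=
      Filter.le_limsup_of_frequently_le hfreq hbdd
    linarith

/-- The main theorem: `S = S̃`; both are equal to `Λ`, and to the set of the fractions `p/q` in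
lowest terms with `|√p - √q| < 1`. -/
theorem result : limitSet = extLimitSet ∧ limitSet = Lam ∧
    limitSet = {β : ℝ | ∃ p q : ℕ, 0 < p ∧ 0 < q ∧ Nat.Coprime p q ∧
      |√(p : ℝ) - √(q : ℝ)| < 1 ∧ β = (p : ℝ) / q} := by
  set L : Set ℝ := {β : ℝ | ∃ p q : ℕ, 0 < p ∧ 0 < q ∧ Nat.Coprime p q ∧
      |√(p : ℝ) - √(q : ℝ)| < 1 ∧ β = (p : ℝ) / q} with hL
  have h1 : L ⊆ limitSet := by
    rintro β ⟨p, q, hp, hq, hpq, hc, rfl⟩
    rw [mem_limitSet]
    intro r _
    rw [sqrt_cond (Nat.cast_nonneg _) (Nat.cast_nonneg _)] at hc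
    obtain ⟨α, hα, hm⟩ := inner hp hq hpq hc r
    refine ⟨α, hα, mem_maximisers.2 ⟨?_, hm⟩⟩
    have hpr : (0 : ℝ) < p := by exact_mod_cast hp
    have hqr : (0 : ℝ) < q := by exact_mod_cast hq
    positivity
  have h2 : limitSet ⊆ extLimitSet := by
    intro β hβ
    rw [mem_extLimitSet]
    intro r hr
    apply subset_closure
    obtain ⟨α, hα, hm⟩ := mem_limitSet.1 hβ r hr
    simp only [Set.mem_iUnion]
    exact ⟨α, hα, hm⟩
  have h3 : extLimitSet ⊆ L := by
    intro β hβ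
    by_contra hcon
    obtain ⟨r, ε, hr, hε, h⟩ := outer (β := β) (by
      intro p q hp hq hpq hβe
      by_contra hlt
      push Not at hlt
      apply hcon
      exact ⟨p, q, hp, hq, hpq, (sqrt_cond (Nat.cast_nonneg _) (Nat.cast_nonneg _)).2 hlt, hβe⟩)
    have h4 := mem_extLimitSet.1 hβ r hr
    rw [Metric.mem_closure_iff] at h4
    obtain ⟨β', hβ', hd⟩ := h4 ε hε
    simp only [Set.mem_iUnion] at hβ'
    obtain ⟨α, hα, hm⟩ := hβ'
    obtain ⟨hβ'0, hmax⟩ := mem_maximisers.1 hm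
    rw [dist_comm, Real.dist_eq] at hd
    obtain ⟨γ, hγ, hlt⟩ := h α hα β' hβ'0 hd
    exact absurd (hmax γ hγ) (not_le.2 hlt)
  have h4 : limitSet = L := Set.Subset.antisymm (h2.trans h3) h1
  have h5 : L = Lam := by
    ext β
    simp only [hL, Lam, Set.mem_ofPred_eq]
    constructor
    · rintro ⟨p, q, hp, hq, hpq, hc, rfl⟩
      refine ⟨⟨(p : ℚ) / q, ?_, by push_cast; rfl⟩, ?_⟩
      · have hpr : (0 : ℚ) < p := by exact_mod_cast hp
        have hqr : (0 : ℚ) < q := by exact_mod_cast hq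
        positivity
      · simp only [latticeCount_eq]
        rw [sqrt_cond (Nat.cast_nonneg _) (Nat.cast_nonneg _)] at hc
        exact (limsup_iff hp hq hpq).2 hc
    · rintro ⟨⟨c, hc, rfl⟩, hlim⟩
      have hnum : 0 < c.num := Rat.num_pos.2 hc
      have hcast : (c : ℝ) = ((c.num.toNat : ℕ) : ℝ) / ((c.den : ℕ) : ℝ) := by
        have e1 : ((c.num.toNat : ℕ) : ℝ) = (c.num : ℝ) := by
          exact_mod_cast (Int.toNat_of_nonneg hnum.le)
        rw [e1, ← Rat.cast_def]
      have hcop : Nat.Coprime c.num.toNat c.den := by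
        have := c.reduced
        have e2 : c.num.natAbs = c.num.toNat := by omega
        rwa [e2] at this
      have hpos : 0 < c.num.toNat := by omega
      refine ⟨c.num.toNat, c.den, hpos, c.den_pos, hcop, ?_, hcast⟩
      rw [sqrt_cond (Nat.cast_nonneg _) (Nat.cast_nonneg _)]
      simp only [latticeCount_eq] at hlim
      rw [hcast] at hlim
      exact (limsup_iff hpos c.den_pos hcop).1 hlim
  exact ⟨Set.Subset.antisymm h2 (h3.trans h1), h4.trans h5, h4⟩

end Pool.Agent.Results.MP_a2cf47_nt.LimitSetsEqual
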